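import Pool.Agent.TH275.QM.Cub

/-! # Cubic rigid systems: on average at most one closed orbit

The family `x' = -y + x (F + s (x² + y²))`, `y' = x + y (F + s (x² + y²))` of cubic rigid systems,
`F = a + b x + c y + d x² + e x y + f y²`, which changes `(d, f)` to `(d + s, f + s)`. -/

open Set MeasureTheory
open scoped ENNReal

namespace Pool.Agent.Results.MP_41d825_an.MeanAtMostOne

/-- `a + b x + c y + d x² + e x y + f y²` -/
def F (a b c d e f : ℝ) (p : ℝ × ℝ) : ℝ :=
  a + b * p.1 + c * p.2 + d * p.1 ^ 2 + e * (p.1 * p.2) + f * p.2 ^ 2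

/-- The closed orbits (images of nonconstant periodic solutions) of the rigid system
`x' = -y + x F(x,y)`, `y' = x + y F(x,y)` which are contained in `A`. -/
def closedOrbits (F : ℝ × ℝ → ℝ) (A : Set (ℝ × ℝ)) : Set (Set (ℝ × ℝ)) :=
  {C | (∃ γ : ℝ → ℝ × ℝ, ∃ T : ℝ, 0 < T ∧
    (∀ t : ℝ, HasDerivAt γ (-(γ t).2 + (γ t).1 * F (γ t), (γ t).1 + (γ t).2 * F (γ t)) t) ∧
    (∀ t : ℝ, γ (t + T) = γ t) ∧ (∃ s t : ℝ, γ s ≠ γ t) ∧ C = range γ) ∧ C ⊆ A}

/-- `N s` has at most `g s` elements, where `g ≥ 0` is measurable with integral at most `K`. -/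
def IntegralLE (N : ℝ → Set (Set (ℝ × ℝ))) (K : ℝ) : Prop :=
  ∃ g : ℝ → ℝ≥0∞, Measurable g ∧ (∀ s, ((N s).encard : ℝ≥0∞) ≤ g s) ∧
    ∫⁻ s, g s ≤ ENNReal.ofReal K

/-- **Cubic rigid systems on average.** Let `F_s = F + s (x² + y²)`.

(i) Let `A` be a set which meets every ray from the origin in an interval (for example a disc, an
annulus or the exterior of a disc) and `m ≤ F / (x² + y²) ≤ M` on `A \ {0}`. Then the rigid system of
`F_s` has no closed orbit in `A` unless `-M ≤ s ≤ -m`, and the integral over `s` of the number of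
its closed orbits in `A` is at most `M - m`: on average over `-M ≤ s ≤ -m` there is at most one.

(ii) The integral over all real `s` of the number of all closed orbits of the system of `F_s` outside
the disc of radius `ρ` is at most `|a| / ρ² + (|b| + |c|) / ρ`, whatever `d, e, f` are. -/
theorem result (a b c d e f : ℝ) :
    (∀ (A : Set (ℝ × ℝ)) (m M : ℝ),
      (∀ t : ℝ, {r : ℝ | 0 < r ∧ (r * Real.cos t, r * Real.sin t) ∈ A}.OrdConnected) →
      (∀ p ∈ A, 0 < p.1 ^ 2 + p.2 ^ 2 → m ≤ F a b c d e f p / (p.1 ^ 2 + p.2 ^ 2) ∧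
        F a b c d e f p / (p.1 ^ 2 + p.2 ^ 2) ≤ M) →
      (∀ s ∉ Icc (-M) (-m), closedOrbits (F a b c (d + s) e (f + s)) A = ∅) ∧
      IntegralLE (fun s => closedOrbits (F a b c (d + s) e (f + s)) A) (M - m)) ∧
    ∀ ρ : ℝ, 0 < ρ →
      IntegralLE (fun s => closedOrbits (F a b c (d + s) e (f + s))
        {p | ρ ^ 2 ≤ p.1 ^ 2 + p.2 ^ 2}) (|a| / ρ ^ 2 + (|b| + |c|) / ρ) := by
  refine ⟨fun A m M hA hm => ⟨fun s hs => ?_, ?_⟩, fun ρ hρ => ?_⟩
  · by_contra hne
    exact hs ((TH275.QM.Cub.main (a := a) (b := b) (c := c) (d := d) (e := e) (f := f) hA hm).1 s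
      (Set.nonempty_iff_ne_empty.2 hne))
  · exact (TH275.QM.Cub.main (a := a) (b := b) (c := c) (d := d) (e := e) (f := f) hA hm).2
  · exact TH275.QM.Cub.exterior a b c d e f hρ

end Pool.Agent.Results.MP_41d825_an.MeanAtMostOne
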